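import Mathlib
import Pool.Agent.H24.GrpFO
import Pool.Agent.H24.Cryst2

set_option autoImplicit false
open Matrix
open Pool.Agent.H24

namespace Pool.Agent.Results.MP_881be3_lc.NotHomog

theorem result :
    ∃ (n : ℕ) (G₀ : Subgroup (GL (Fin n) ℤ))
      (ρ : G₀ →* MulAut (Multiplicative (Fin n → ℤ))),
      1 ≤ n ∧ Finite G₀ ∧
      (∀ (g : G₀) (x : Fin n → ℤ), ρ g (Multiplicative.ofAdd x) =
        Multiplicative.ofAdd (((g : GL (Fin n) ℤ) : Matrix (Fin n) (Fin n) ℤ) *ᵥ x)) ∧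
      (∀ W : Submodule ℚ (Fin n → ℚ),
        (∀ g ∈ G₀, ∀ w ∈ W, ((g : Matrix (Fin n) (Fin n) ℤ).map (Int.cast : ℤ → ℚ)) *ᵥ w ∈ W) →
          W = ⊥ ∨ W = ⊤) ∧
      ¬ GrpFO.Homogeneous (Multiplicative (Fin n → ℤ) ⋊[ρ] G₀) :=
  ⟨4, Cryst.G0, Cryst.phi ℤ, by norm_num, inferInstance, fun _ _ => rfl, Cryst.irred,
    Cryst.not_homog⟩

end Pool.Agent.Results.MP_881be3_lc.NotHomog
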